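import Mathlib

set_option autoImplicit false

open Subgroup Finset

namespace Pool.Agent.Results.MP_cb01cb_al.PSoluble

universe u

/-- Condition (C_p): no element has composite order divisible by `p`. -/
def CondC (p : ℕ) (G : Type u) [Group G] : Prop := ∀ g : G, p ∣ orderOf g → (orderOf g).Prime

/-- `p`-soluble groups: above every proper normal subgroup `N` there is a larger normal subgroup
`M` such that `M / N` is a `p`-group or a `p'`-group. -/
def IsPSoluble (p : ℕ) (G : Type u) [Group G] : Prop :=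
  ∀ N : Subgroup G, N.Normal → N ≠ ⊤ → ∃ M : Subgroup G, M.Normal ∧ N < M ∧
    ((∃ k : ℕ, N.relIndex M = p ^ k) ∨ ¬ p ∣ N.relIndex M)

section actions

variable {G : Type u} [Group G] {p : ℕ} [hp : Fact p.Prime]

omit hp in
lemma shift {V : Type u} [CommGroup V] (γ : MulAut V) (hγ : γ ^ p = 1) (v : V) :
    ∏ j ∈ range p, (γ ^ (j + 1)) v = ∏ j ∈ range p, (γ ^ j) v := by
  have h1 := prod_range_succ (fun j => (γ ^ j) v) p
  have h2 := prod_range_succ' (fun j => (γ ^ j) v) p
  simp only [hγ] at h1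
  simp only [pow_zero] at h2
  rw [h1] at h2
  exact (mul_right_cancel h2).symm

omit hp in
lemma norm_fix {V : Type u} [CommGroup V] (γ : MulAut V) (hγ : γ ^ p = 1)
    (hfix : ∀ v, γ v = v → v = 1) (v : V) : ∏ j ∈ range p, (γ ^ j) v = 1 := by
  apply hfix
  rw [map_prod]
  have : ∀ j, γ ((γ ^ j) v) = (γ ^ (j + 1)) v := fun j => by rw [pow_succ']; rfl
  simp_rw [this]
  exact shift γ hγ v

lemma noncyclic {V : Type u} [CommGroup V] (φ : G →* MulAut V)
    (hfix : ∀ g : G, orderOf g = p → ∀ v, φ g v = v → v = 1) {x z : G} (hx : x ^ p = 1)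
    (hz : orderOf z = p) (hxz : Commute x z) (hnx : x ∉ zpowers z) (v : V) : v ^ p = 1 := by
  have hzp : z ^ p = 1 := by rw [← hz]; exact pow_orderOf_eq_one z
  have h1 : ∀ i, ∏ j ∈ range p, (φ (x * z ^ i) ^ j) v = 1 := by
    intro i
    have hc : Commute x (z ^ i) := hxz.pow_right i
    have e1 : (x * z ^ i) ^ p = 1 := by
      rw [hc.mul_pow, hx, ← pow_mul, mul_comm, pow_mul, hzp, one_pow, one_mul]
    have e2 : x * z ^ i ≠ 1 := by
      intro h
      apply hnx
      rw [eq_inv_of_mul_eq_one_left h]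
      exact inv_mem (pow_mem (mem_zpowers z) i)
    exact norm_fix _ (by rw [← map_pow, e1, map_one]) (hfix _ (orderOf_eq_prime e1 e2)) v
  have h2 : ∀ j ∈ range p, j ≠ 0 → ∏ i ∈ range p, (φ (x * z ^ i) ^ j) v = 1 := by
    intro j hj hj0
    have e1 : (z ^ j) ^ p = 1 := by rw [← pow_mul, mul_comm, pow_mul, hzp, one_pow]
    have e2 : z ^ j ≠ 1 := by
      intro h
      have := orderOf_dvd_of_pow_eq_one h
      rw [hz] at this
      exact absurd (Nat.le_of_dvd (Nat.pos_of_ne_zero hj0) this) (not_le.2 (mem_range.1 hj))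
    have e3 := norm_fix (φ (z ^ j)) (by rw [← map_pow, e1, map_one])
      (hfix _ (orderOf_eq_prime e1 e2)) v
    have e4 : ∀ i, (φ (x * z ^ i) ^ j) v = φ (x ^ j) ((φ (z ^ j) ^ i) v) := by
      intro i
      have hc : Commute x (z ^ i) := hxz.pow_right i
      rw [← map_pow, hc.mul_pow, ← pow_mul, mul_comm i j, pow_mul, map_mul, ← map_pow]
      rfl
    simp_rw [e4]
    rw [← map_prod, e3, map_one]
  have h3 : ∏ i ∈ range p, ∏ j ∈ range p, (φ (x * z ^ i) ^ j) v = 1 :=
    prod_eq_one fun i _ => h1 i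
  rw [prod_comm, prod_eq_single 0 h2 (fun h => absurd (mem_range.2 hp.out.pos) h)] at h3
  simpa using h3

lemma frob {V : Type u} [CommGroup V] (φ : G →* MulAut V) (R : Subgroup G) [Finite R] {x : G}
    (hx : x ∈ normalizer (R : Set G))
    (hR : ∀ v, (∀ r ∈ R, φ r v = v) → v = 1)
    (hxR : ∀ i, 0 < i → i < p → ∀ r ∈ R, Commute (x ^ i) r → r = 1)
    (v : V) (h : ∀ f ∈ R, ∏ i ∈ range p, φ (f⁻¹ * x ^ i * f) v = 1) : v ^ Nat.card R = 1 := by
  have : Fintype R := Fintype.ofFinite R
  have hs : ∏ r : R, φ r v = 1 := by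
    apply hR
    intro s hs
    rw [map_prod]
    have e : ∀ r : R, φ s (φ r v) = φ ((⟨s, hs⟩ * r : R) : G) v := by
      intro r
      have : ((⟨s, hs⟩ * r : R) : G) = s * r := rfl
      rw [this, map_mul]; rfl
    simp_rw [e]
    exact Equiv.prod_comp (Equiv.mulLeft (⟨s, hs⟩ : R)) (fun r : R => φ r v)
  have h2 : ∀ i ∈ range p, i ≠ 0 → ∏ f : R, φ ((f : G)⁻¹ * x ^ i * f) v = 1 := by
    intro i hi hi0
    have hxi : x ^ i ∈ normalizer (R : Set G) := pow_mem hx i
    have hmem : ∀ f : R, (x ^ i)⁻¹ * (f : G)⁻¹ * x ^ i * f ∈ R := by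
      intro f
      refine mul_mem ?_ f.2
      have := (mem_normalizer_iff.1 (inv_mem hxi) (f : G)⁻¹).1 (inv_mem f.2)
      rwa [inv_inv] at this
    let θ : R → R := fun f => ⟨_, hmem f⟩
    have hθ : Function.Injective θ := by
      intro f g hfg
      have e1 : (x ^ i)⁻¹ * (f : G)⁻¹ * x ^ i * f = (x ^ i)⁻¹ * (g : G)⁻¹ * x ^ i * g :=
        congrArg Subtype.val hfg
      have e2 : Commute (x ^ i) ((g : G) * (f : G)⁻¹) := by
        have e3 : (f : G)⁻¹ * x ^ i * f = (g : G)⁻¹ * x ^ i * g := by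
          have := congrArg (fun t => x ^ i * t) e1
          simpa [mul_assoc] using this
        have e4 : x ^ i * ((g : G) * (f : G)⁻¹) = g * ((g : G)⁻¹ * x ^ i * g) * (f : G)⁻¹ := by group
        have e5 : (g : G) * (f : G)⁻¹ * x ^ i = g * ((f : G)⁻¹ * x ^ i * f) * (f : G)⁻¹ := by group
        change x ^ i * ((g : G) * (f : G)⁻¹) = (g : G) * (f : G)⁻¹ * x ^ i
        rw [e4, e5, e3]
      have e6 := hxR i (Nat.pos_of_ne_zero hi0) (mem_range.1 hi) _ (mul_mem g.2 (inv_mem f.2)) e2
      exact Subtype.ext (mul_inv_eq_one.1 e6).symm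
    have hb : Function.Bijective θ := Finite.injective_iff_bijective.1 hθ
    have e7 : ∀ f : R, φ ((f : G)⁻¹ * x ^ i * f) v = φ (x ^ i) (φ (θ f) v) := by
      intro f
      have : (f : G)⁻¹ * x ^ i * f = x ^ i * (θ f : G) := by
        change _ = x ^ i * ((x ^ i)⁻¹ * (f : G)⁻¹ * x ^ i * f)
        group
      rw [this, map_mul]; rfl
    simp_rw [e7]
    rw [← map_prod, hb.prod_comp (fun r : R => φ r v), hs, map_one]
  have h3 : ∏ f : R, ∏ i ∈ range p, φ ((f : G)⁻¹ * x ^ i * f) v = 1 :=
    prod_eq_one fun f _ => h f f.2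
  rw [prod_comm, prod_eq_single 0 h2 (fun h => absurd (mem_range.2 hp.out.pos) h)] at h3
  simpa [Nat.card_eq_fintype_card] using h3

omit hp in
lemma pow_formula {V : Type u} [CommGroup V] (ι : V →* G) (φ : G →* MulAut V)
    (hφ : ∀ g v, ι (φ g v) = g * ι v * g⁻¹) (y : G) (v : V) (n : ℕ) :
    (y * ι v) ^ n = ι (∏ i ∈ range n, φ (y ^ (i + 1)) v) * y ^ n := by
  induction n with
  | zero => simp
  | succ n ih =>
    rw [pow_succ', ih, prod_range_succ']
    have e : ∏ i ∈ range n, φ (y ^ (i + 1 + 1)) v = φ y (∏ i ∈ range n, φ (y ^ (i + 1)) v) := by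
      rw [map_prod]
      refine prod_congr rfl fun i _ => ?_
      rw [pow_succ' y (i + 1), map_mul]; rfl
    set W := ∏ i ∈ range n, φ (y ^ (i + 1)) v with hW
    have hc : ι W * ι v = ι v * ι W := by rw [← map_mul, ← map_mul, mul_comm]
    rw [e, map_mul, hφ, zero_add, pow_one, hφ]
    calc y * ι v * (ι W * y ^ n) = y * (ι v * ι W) * y ^ n := by group
      _ = y * (ι W * ι v) * y ^ n := by rw [hc]
      _ = y * ι W * y⁻¹ * (y * ι v * y⁻¹) * y ^ (n + 1) := by rw [pow_succ']; group

end actions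

section groups

set_option linter.unusedSectionVars false

variable {G : Type u} [Group G] [Finite G] {p : ℕ} [hp : Fact p.Prime]

lemma ord_eq (h : CondC p G) {g : G} (hg : p ∣ orderOf g) : orderOf g = p :=
  ((Nat.prime_dvd_prime_iff_eq hp.out (h g hg)).1 hg).symm

omit [Finite G] in
lemma comm_coprime (h : CondC p G) {x y : G} (hx : orderOf x = p) (hy : ¬ p ∣ orderOf y)
    (hxy : Commute x y) : y = 1 := by
  have hc : (orderOf x).Coprime (orderOf y) := by
    rw [hx]; exact (hp.out.coprime_iff_not_dvd).2 hy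
  have h1 := hxy.orderOf_mul_eq_mul_orderOf_of_coprime hc
  have h2 : p ∣ orderOf (x * y) := by rw [h1, hx]; exact dvd_mul_right _ _
  have h3 : orderOf (x * y) = p := ((Nat.prime_dvd_prime_iff_eq hp.out (h _ h2)).1 h2).symm
  rw [h1, hx] at h3
  have : orderOf y = 1 := Nat.eq_of_mul_eq_mul_left hp.out.pos (by rw [h3, mul_one])
  exact orderOf_eq_one_iff.1 this

lemma orderOf_of_mem {D : Subgroup G} (hD : ¬ p ∣ Nat.card D) {v : G} (hv : v ∈ D) :
    ¬ p ∣ orderOf v := by
  intro h
  apply hD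
  have h1 : orderOf (⟨v, hv⟩ : D) = orderOf v := (Subgroup.orderOf_coe (⟨v, hv⟩ : D)).symm
  rw [← h1] at h
  exact h.trans (orderOf_dvd_natCard _)

lemma fpf_of_cond (h : CondC p G) (D : Subgroup G) [hDn : D.Normal] (hDp : ¬ p ∣ Nat.card D) :
    ∀ g : G, orderOf g = p → ∀ v : D, (MulAut.conjNormal g : MulAut D) v = v → v = 1 := by
  intro g hg v hv
  have h1 : g * v * g⁻¹ = v := by
    have := congrArg Subtype.val hv
    rwa [MulAut.conjNormal_apply] at this
  have h2 : Commute g (v : G) := mul_inv_eq_iff_eq_mul.1 h1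
  exact Subtype.ext (comm_coprime h hg (orderOf_of_mem hDp v.2) h2)

/-- nontrivial elements of `p`-power order have order `p` -/
lemma ord_p (h : CondC p G) {x : G} {k : ℕ} (hx : x ^ p ^ k = 1) (hx1 : x ≠ 1) : orderOf x = p := by
  obtain ⟨m, -, hm⟩ := (Nat.dvd_prime_pow hp.out).1 (orderOf_dvd_of_pow_eq_one hx)
  have hm0 : m ≠ 0 := by
    rintro rfl
    rw [pow_zero] at hm
    exact hx1 (orderOf_eq_one_iff.1 hm)
  exact ord_eq h (by rw [hm]; exact dvd_pow_self p hm0)

lemma caseA_core (h : CondC p G) (hpG : p ∣ Nat.card G) (D : Subgroup G) (hDn : D.Normal)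
    (hD1 : D ≠ ⊥) (hDp : ¬ p ∣ Nat.card D) (hDc : ∀ a ∈ D, ∀ b ∈ D, a * b = b * a)
    (P : Sylow p G) : Nat.card P = p := by
  obtain ⟨k, hk⟩ := IsPGroup.iff_card.1 P.2
  have hpP : p ∣ Nat.card P := P.dvd_card_of_dvd_card hpG
  have hnt : Nontrivial P := by
    rw [← Finite.one_lt_card_iff_nontrivial]
    exact lt_of_lt_of_le hp.out.one_lt (Nat.le_of_dvd Nat.card_pos hpP)
  have hcn : Nontrivial (center P) := P.2.center_nontrivial
  obtain ⟨z, hz1⟩ := exists_ne (1 : center P)
  have hPord : ∀ x ∈ (P : Subgroup G), x ≠ 1 → orderOf x = p := by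
    intro x hx hx1
    obtain ⟨k, hk⟩ := P.2 ⟨x, hx⟩
    exact ord_p h (k := k) (congrArg Subtype.val hk) hx1
  have hzo : orderOf ((z : P) : G) = p :=
    hPord _ (z : P).2 (fun h => hz1 (Subtype.ext (Subtype.ext h)))
  by_contra hne
  have hex : ∃ x ∈ (P : Subgroup G), x ∉ zpowers ((z : P) : G) := by
    by_contra hno
    push Not at hno
    have h1 : (P : Subgroup G) ≤ zpowers ((z : P) : G) := hno
    have h2 := card_dvd_of_le h1
    rw [Nat.card_zpowers, hzo] at h2
    exact hne (Nat.dvd_antisymm h2 hpP)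
  obtain ⟨x, hxP, hxz⟩ := hex
  have hx1 : x ≠ 1 := by rintro rfl; exact hxz (one_mem _)
  have hxp : x ^ p = 1 := by rw [← hPord x hxP hx1]; exact pow_orderOf_eq_one x
  have hxzc : Commute x ((z : P) : G) := congrArg Subtype.val ((mem_center_iff.1 z.2) ⟨x, hxP⟩)
  let inst : CommGroup D := { (inferInstance : Group D) with
    mul_comm := fun a b => by
      exact Subtype.ext (hDc a a.2 b b.2) }
  have key := noncyclic (p := p) (V := D) (MulAut.conjNormal : G →* MulAut D) (fpf_of_cond h D hDp)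
    hxp hzo hxzc hxz
  apply hD1
  rw [eq_bot_iff]
  intro v hv
  have h1 := key ⟨v, hv⟩
  have h2 : v ^ p = 1 := congrArg Subtype.val h1
  have h3 := orderOf_dvd_of_pow_eq_one h2
  rcases (Nat.dvd_prime hp.out).1 h3 with h4 | h4
  · exact mem_bot.2 (orderOf_eq_one_iff.1 h4)
  · exact absurd (by rw [h4]) (orderOf_of_mem hDp hv)

omit [Finite G] hp in
lemma center_map_comm (Q : Subgroup G) :
    ∀ a ∈ (center Q).map Q.subtype, ∀ b ∈ (center Q).map Q.subtype, a * b = b * a := by
  rintro _ ⟨a, ha, rfl⟩ _ ⟨b, hb, rfl⟩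
  have h1 := (mem_center_iff.1 hb) a
  exact congrArg Q.subtype h1

omit hp in
lemma center_map_ne {q : ℕ} [Fact q.Prime] (Q : Subgroup G) (hQ : IsPGroup q Q) (hQ1 : Q ≠ ⊥) :
    (center Q).map Q.subtype ≠ ⊥ := by
  have h1 : Nontrivial Q := (Subgroup.nontrivial_iff_ne_bot Q).2 hQ1
  have h2 : Nontrivial (center Q) := hQ.center_nontrivial
  intro h0
  have h3 := (Subgroup.map_eq_bot_iff_of_injective (center Q) Q.subtype_injective).1 h0
  exact (Subgroup.nontrivial_iff_ne_bot _).1 h2 h3

omit [Finite G] hp in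
lemma condC_sub (h : CondC p G) (K : Subgroup G) : CondC p K := by
  intro g hg
  rw [← Subgroup.orderOf_coe] at hg ⊢
  exact h g hg

lemma caseA (h : CondC p G) (hpG : p ∣ Nat.card G)
    (M : Subgroup G) (hM : M.Normal) (hM1 : M ≠ ⊥) (hMp : ¬ p ∣ Nat.card M) (P : Sylow p G) :
    Nat.card P = p := by
  obtain ⟨q, hq, hqM⟩ := Nat.exists_prime_and_dvd (fun h0 => hM1 (M.card_eq_one.1 h0))
  have hqp : q ≠ p := by rintro rfl; exact hMp hqM
  have : Fact q.Prime := ⟨hq⟩
  obtain ⟨Q0⟩ : Nonempty (Sylow q M) := inferInstance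
  have hF := Sylow.normalizer_sup_eq_top Q0
  set Q : Subgroup G := (Q0 : Subgroup M).map M.subtype with hQdef
  have hQq : IsPGroup q Q := Q0.2.map _
  have hQM : Q ≤ M := map_subtype_le _
  have hQ1 : Q ≠ ⊥ := by
    intro h0
    have h1 := (Subgroup.map_eq_bot_iff_of_injective (Q0 : Subgroup M) M.subtype_injective).1 h0
    have h2 : q ∣ Nat.card Q0 := Q0.dvd_card_of_dvd_card hqM
    have h3 : Nat.card Q0 = 1 := (Q0 : Subgroup M).card_eq_one.2 h1
    rw [h3] at h2
    exact hq.one_lt.ne' (Nat.dvd_one.1 h2)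
  set H := normalizer (Q : Set G) with hH
  have hidx : ¬ p ∣ H.index := by
    have a1 := relIndex_mul_index (inf_le_right : H ⊓ M ≤ M)
    have a2 := relIndex_mul_index (inf_le_left : H ⊓ M ≤ H)
    have a3 := relIndex_mul_index (le_sup_right : M ≤ H ⊔ M)
    rw [inf_relIndex_right] at a1
    rw [inf_relIndex_left] at a2
    rw [relIndex_sup_right] at a3
    have a4 : M.relIndex H ≠ 0 := by
      intro h0
      rw [h0, zero_mul] at a3
      exact M.index_ne_zero_of_finite a3.symm
    have a5 : H.relIndex M * (H ⊔ M).index = H.index := by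
      apply Nat.eq_of_mul_eq_mul_left (Nat.pos_of_ne_zero a4)
      rw [a2, ← a1, ← a3]; ring
    have a6 : H ⊔ M = ⊤ := hF
    rw [a6, index_top, mul_one] at a5
    rw [← a5]
    intro hd
    exact hMp (hd.trans (relIndex_dvd_card H M))
  obtain ⟨T0⟩ : Nonempty (Sylow p H) := inferInstance
  set T : Subgroup G := (T0 : Subgroup H).map H.subtype with hT
  have hTp : IsPGroup p T := T0.2.map _
  have hTi : ¬ p ∣ T.index := by
    rw [hT, index_map_subtype]
    exact hp.out.not_dvd_mul T0.not_dvd_index hidx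
  have hcard : Nat.card P = Nat.card T0 := by
    have e1 : Nat.card P = Nat.card (hTp.toSylow hTi) :=
      Nat.card_congr (P.equiv (hTp.toSylow hTi)).toEquiv
    have e2 : Nat.card (hTp.toSylow hTi) = Nat.card T := rfl
    rw [e1, e2, Nat.card_congr ((T0 : Subgroup H).equivMapOfInjective _ H.subtype_injective).toEquiv]
  rw [hcard]
  have hpH : p ∣ Nat.card H := by
    have h1 : p ∣ Nat.card T0 := by rw [← hcard]; exact P.dvd_card_of_dvd_card hpG
    exact h1.trans (card_subgroup_dvd_card _)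
  have hQH : Q ≤ H := le_normalizer
  set Q' : Subgroup H := Q.subgroupOf H with hQ'
  have hQ'n : Q'.Normal := inferInstance
  have hQ'q : IsPGroup q Q' := hQq.comap_subtype
  have hQ'1 : Q' ≠ ⊥ := by
    intro h0
    rw [hQ', subgroupOf_eq_bot, disjoint_iff] at h0
    rw [inf_of_le_left hQH] at h0
    exact hQ1 h0
  have hD'n : ((center Q').map Q'.subtype).Normal := inferInstance
  refine caseA_core (condC_sub h H) hpH ((center Q').map Q'.subtype) hD'n
    (center_map_ne Q' hQ'q hQ'1) ?_ (center_map_comm Q') T0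
  intro hd
  have h1 : p ∣ Nat.card Q' := hd.trans (card_dvd_of_le (map_subtype_le _))
  obtain ⟨k, hk⟩ := IsPGroup.iff_card.1 hQ'q
  rw [hk] at h1
  exact hqp ((Nat.prime_dvd_prime_iff_eq hp.out hq).1 (hp.out.dvd_of_dvd_pow h1)).symm

lemma caseB (h : CondC p G) (hsol : IsPSoluble p G) (hpG : p ∣ Nat.card G)
    (hno : ∀ M : Subgroup G, M.Normal → ¬ p ∣ Nat.card M → M = ⊥) (P : Sylow p G) :
    (P : Subgroup G).Normal := by
  by_contra hPn
  set Q : Subgroup G := (P : Subgroup G).normalCore with hQdef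
  have hQP : Q ≤ P := normalCore_le _
  have hQn : Q.Normal := inferInstance
  have hmax : ∀ N : Subgroup G, N.Normal → IsPGroup p N → N ≤ Q := by
    intro N hN hNp
    rw [hQdef, normal_le_normalCore]
    have h1 : IsPGroup p ((P : Subgroup G) ⊔ N : Subgroup G) := P.2.to_sup_of_normal_right hNp
    have h2 := P.3 h1 le_sup_left
    rw [← h2]; exact le_sup_right
  have hPQ : ¬ (P : Subgroup G) ≤ Q := fun hle => hPn (by rw [le_antisymm hle hQP]; exact hQn)
  -- the normal subgroup `N`
  have hcardM : ∀ M : Subgroup G, Q ≤ M → Nat.card M = Nat.card Q * Q.relIndex M := by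
    intro M hM
    have h1 := (Q.subgroupOf M).card_mul_index
    rw [Nat.card_congr (subgroupOfEquivOfLe hM).toEquiv] at h1
    exact h1.symm
  have hQtop : Q ≠ ⊤ := fun h0 => hPQ (by rw [h0]; exact le_top)
  obtain ⟨N, hNn, hQN, hN⟩ := hsol Q hQn hQtop
  have hN1 : ¬ N ≤ Q := fun h0 => hQN.not_ge h0
  have hrel : ¬ p ∣ Q.relIndex N := by
    rcases hN with ⟨k, hk⟩ | hN
    · exfalso
      apply hN1
      apply hmax N hNn
      obtain ⟨j, hj⟩ := IsPGroup.iff_card.1 (P.2.to_le hQP)
      rw [IsPGroup.iff_card]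
      exact ⟨j + k, by rw [hcardM N hQN.le, hj, hk, pow_add]⟩
    · exact hN
  have hNp : ¬ IsPGroup p N := fun h => hN1 (hmax N hNn h)
  have hr : ∃ r : ℕ, r.Prime ∧ r ∣ Nat.card N ∧ r ≠ p := by
    by_contra hno
    push Not at hno
    apply hNp
    rw [IsPGroup.iff_card]
    exact ⟨_, Nat.eq_prime_pow_of_unique_prime_dvd Nat.card_pos.ne' (fun {d} h1 h2 => hno d h1 h2)⟩
  obtain ⟨r, hrp, hrd, hrne⟩ := hr
  have : Fact r.Prime := ⟨hrp⟩
  obtain ⟨R0⟩ : Nonempty (Sylow r N) := inferInstance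
  set R : Subgroup G := (R0 : Subgroup N).map N.subtype with hRdef
  have hF := Sylow.normalizer_sup_eq_top R0
  have hRr : IsPGroup r R := R0.2.map _
  have hRnt : ∃ y ∈ R, y ≠ 1 := by
    have h1 : r ∣ Nat.card R0 := R0.dvd_card_of_dvd_card hrd
    have h2 : 1 < Nat.card R0 := lt_of_lt_of_le hrp.one_lt (Nat.le_of_dvd Nat.card_pos h1)
    have : Nontrivial R0 := Finite.one_lt_card_iff_nontrivial.1 h2
    obtain ⟨y, hy⟩ := exists_ne (1 : R0)
    exact ⟨((y : N) : G), mem_map_of_mem N.subtype y.2,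
      fun h => hy (Subtype.ext (Subtype.ext h))⟩
  have hRord : ∀ y ∈ R, ¬ p ∣ orderOf y := by
    intro y hy hd
    obtain ⟨k, hk⟩ := hRr ⟨y, hy⟩
    have hk' : y ^ r ^ k = 1 := congrArg Subtype.val hk
    have h1 := hp.out.dvd_of_dvd_pow (hd.trans (orderOf_dvd_of_pow_eq_one hk'))
    exact hrne ((Nat.prime_dvd_prime_iff_eq hp.out hrp).1 h1).symm
  have hPord : ∀ x ∈ (P : Subgroup G), x ≠ 1 → orderOf x = p := by
    intro x hx hx1
    obtain ⟨k, hk⟩ := P.2 ⟨x, hx⟩
    exact ord_p h (k := k) (congrArg Subtype.val hk) hx1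
  -- a p-element normalizing `R`
  have hx : ∃ x ∈ normalizer (R : Set G), orderOf x = p := by
    by_contra hcon
    push Not at hcon
    have hnd : ¬ p ∣ Nat.card (normalizer (R : Set G)) := by
      intro hd
      obtain ⟨x, hx⟩ := exists_prime_orderOf_dvd_card' p hd
      exact hcon x x.2 (by rw [← hx]; exact Subgroup.orderOf_coe x)
    have hPN : (P : Subgroup G) ≤ N := by
      intro x hxP
      have h1 : x ∈ normalizer (R : Set G) ⊔ N := by
        have : normalizer (R : Set G) ⊔ N = ⊤ := hF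
        rw [this]; exact mem_top _
      obtain ⟨a, ha, b, hb, hab⟩ := mem_sup_of_normal_right.1 h1
      -- order of `x` modulo `N`
      set π := QuotientGroup.mk' N
      have h2 : π x = π a := by
        have hb1 : π b = 1 := (QuotientGroup.eq_one_iff b).2 hb
        rw [← hab, map_mul, hb1, mul_one]
      have h3 : orderOf (π x) ∣ orderOf a := by rw [h2]; exact orderOf_map_dvd π a
      have h4 : ¬ p ∣ orderOf (π x) := by
        intro hd
        apply hnd
        have h5 : orderOf (⟨a, ha⟩ : normalizer (R : Set G)) = orderOf a :=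
          (Subgroup.orderOf_coe (⟨a, ha⟩ : normalizer (R : Set G))).symm
        exact (hd.trans h3).trans (by rw [← h5]; exact orderOf_dvd_natCard _)
      by_cases hx1 : x = 1
      · rw [hx1]; exact one_mem _
      have h6 : orderOf (π x) ∣ p := by
        rw [← hPord x hxP hx1]; exact orderOf_map_dvd π x
      rcases (Nat.dvd_prime hp.out).1 h6 with h7 | h7
      · exact (QuotientGroup.eq_one_iff x).1 (orderOf_eq_one_iff.1 h7)
      · exact absurd (by rw [h7]) h4
    apply hPQ
    have h1 : Nat.card P ∣ Nat.card Q * Q.relIndex N := by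
      rw [← hcardM N hQN.le]; exact card_dvd_of_le hPN
    obtain ⟨k, hk⟩ := IsPGroup.iff_card.1 P.2
    have h2 : Nat.Coprime (Nat.card P) (Q.relIndex N) := by
      have h3 : Nat.card P = p ^ k := hk
      rw [h3]; exact ((hp.out.coprime_iff_not_dvd).2 hrel).pow_left k
    have h3 : Nat.card P ∣ Nat.card Q := h2.dvd_of_dvd_mul_right h1
    have h4 : Q = (P : Subgroup G) :=
      Subgroup.eq_of_le_of_card_ge hQP (Nat.le_of_dvd Nat.card_pos h3)
    exact h4.ge
  obtain ⟨x, hxR, hxo⟩ := hx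
  have hxp : x ^ p = 1 := by rw [← hxo]; exact pow_orderOf_eq_one x
  have hQ1 : Q ≠ ⊥ := by
    intro h0
    obtain ⟨M, hMn, hM1, hM⟩ := hsol ⊥ inferInstance (by
      intro h1
      have : x ∈ (⊤ : Subgroup G) := mem_top _
      rw [← h1, mem_bot] at this
      rw [this, orderOf_one] at hxo
      exact hp.out.one_lt.ne hxo)
    rw [relIndex_bot_left] at hM
    have hM1' : M ≠ ⊥ := hM1.ne'
    rcases hM with hM | hM
    · have h2 := hmax M hMn (IsPGroup.iff_card.2 hM)
      rw [h0] at h2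
      exact hM1' (le_bot_iff.1 h2)
    · exact hM1' (hno M hMn hM)
  set D : Subgroup G := (center Q).map Q.subtype with hDdef
  have hDn : D.Normal := inferInstance
  have hD1 : D ≠ ⊥ := center_map_ne Q (P.2.to_le hQP) hQ1
  have hDp : IsPGroup p D := (P.2.to_le hQP).to_le (map_subtype_le _)
  have hDc := center_map_comm Q
  let inst : CommGroup D := { (inferInstance : Group D) with
    mul_comm := fun a b => Subtype.ext (hDc a a.2 b b.2) }
  obtain ⟨v, hvD, hv1⟩ := (Subgroup.ne_bot_iff_exists_ne_one.1 hD1 : _) |> fun ⟨v, hv⟩ =>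
    (⟨v.1, v.2, fun h => hv (Subtype.ext h)⟩ : ∃ v : G, v ∈ D ∧ v ≠ 1)
  have hDord : ∀ w : D, w ≠ 1 → orderOf (w : G) = p := by
    intro w hw
    obtain ⟨k, hk⟩ := hDp w
    exact ord_p h (k := k) (congrArg Subtype.val hk) (fun h => hw (Subtype.ext h))
  obtain ⟨y, hyR, hy1⟩ := hRnt
  have key := frob (p := p) (V := D) (MulAut.conjNormal : G →* MulAut D) R hxR
    (fun w hw => by
      by_contra hw1
      have h1 : y * w * y⁻¹ = w := by
        have := congrArg Subtype.val (hw y hyR)
        rwa [MulAut.conjNormal_apply] at this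
      have h2 : Commute y (w : G) := mul_inv_eq_iff_eq_mul.1 h1
      exact hy1 (comm_coprime h (hDord w hw1) (hRord y hyR) h2.symm))
    (fun i hi0 hip s hs hc => by
      have e1 : (x ^ i) ^ p = 1 := by rw [← pow_mul, mul_comm, pow_mul, hxp, one_pow]
      have e2 : x ^ i ≠ 1 := by
        intro h
        have := orderOf_dvd_of_pow_eq_one h
        rw [hxo] at this
        exact absurd (Nat.le_of_dvd hi0 this) (not_le.2 hip)
      exact comm_coprime h (orderOf_eq_prime e1 e2) (hRord s hs) hc) ⟨v, hvD⟩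
  by_cases hall : ∀ f ∈ R, ∏ i ∈ range p, (MulAut.conjNormal (f⁻¹ * x ^ i * f) : MulAut D) ⟨v, hvD⟩ = 1
  · have h1 := key hall
    have h2 : v ^ Nat.card R = 1 := congrArg Subtype.val h1
    have h3 : orderOf v = p := hDord ⟨v, hvD⟩ (fun h => hv1 (congrArg Subtype.val h))
    have h4 := orderOf_dvd_of_pow_eq_one h2
    rw [h3] at h4
    obtain ⟨k, hk⟩ := IsPGroup.iff_card.1 hRr
    rw [hk] at h4
    exact hrne ((Nat.prime_dvd_prime_iff_eq hp.out hrp).1 (hp.out.dvd_of_dvd_pow h4)).symm
  · push Not at hall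
    obtain ⟨f, hf, hprod⟩ := hall
    set y := f⁻¹ * x * f with hy
    have hyi : ∀ i, f⁻¹ * x ^ i * f = y ^ i := by
      intro i
      have := conj_pow (i := i) (a := f⁻¹) (b := x)
      rw [inv_inv] at this
      rw [hy, this]
    have hyp : y ^ p = 1 := by rw [← hyi, hxp]; group
    have h1 := pow_formula (V := D) D.subtype (MulAut.conjNormal : G →* MulAut D)
      (fun g w => MulAut.conjNormal_apply g w) y ⟨v, hvD⟩ p
    have h2 : ∏ i ∈ range p, (MulAut.conjNormal (y ^ (i + 1)) : MulAut D) ⟨v, hvD⟩ =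
        ∏ i ∈ range p, (MulAut.conjNormal (f⁻¹ * x ^ i * f) : MulAut D) ⟨v, hvD⟩ := by
      have h3 := shift (p := p) (V := D) (MulAut.conjNormal y : MulAut D)
        (by rw [← map_pow, hyp, map_one]) ⟨v, hvD⟩
      simp_rw [hyi]
      simp_rw [← map_pow] at h3
      exact h3
    rw [hyp, mul_one, h2] at h1
    set W := ∏ i ∈ range p, (MulAut.conjNormal (f⁻¹ * x ^ i * f) : MulAut D) ⟨v, hvD⟩ with hW
    have h4 : (y * v) ^ p = (W : G) := h1
    have h5 : orderOf (W : G) = p := hDord W hprod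
    have h6 : (y * v) ^ p ^ 2 = 1 := by
      rw [pow_two, pow_mul, h4, ← h5]; exact pow_orderOf_eq_one _
    have h7 : y * v ≠ 1 := by
      intro h0
      rw [h0, one_pow] at h4
      exact hprod (Subtype.ext h4.symm)
    have h8 := ord_p h h6 h7
    have h9 : (y * v) ^ p = 1 := by
      have := pow_orderOf_eq_one (y * v)
      rwa [h8] at this
    rw [h9] at h4
    exact hprod (Subtype.ext h4.symm)

end groups


section final

variable {G : Type u} [Group G] [Finite G] {p : ℕ} [hp : Fact p.Prime]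

/-- a largest normal `p'`-subgroup `N`; if `|P| = p` and `G` is p-soluble then `N P` is normal -/
lemma exists_N (hsol : IsPSoluble p G) (P : Sylow p G) (hP : Nat.card P = p) :
    ∃ N : Subgroup G, N.Normal ∧ ¬ p ∣ Nat.card N ∧ (N ⊔ P : Subgroup G).Normal := by
  obtain ⟨N, hN⟩ : ∃ N : Subgroup G, Maximal (fun N : Subgroup G => N.Normal ∧ ¬ p ∣ Nat.card N) N := by
    have hne : {N : Subgroup G | N.Normal ∧ ¬ p ∣ Nat.card N}.Nonempty :=
      ⟨⊥, inferInstance, by rw [Subgroup.card_bot]; exact hp.out.one_lt.ne' ∘ Nat.dvd_one.1⟩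
    exact (Set.toFinite {N : Subgroup G | N.Normal ∧ ¬ p ∣ Nat.card N}).exists_maximal hne
  obtain ⟨⟨hNn, hNp⟩, hNmax⟩ := hN
  refine ⟨N, hNn, hNp, ?_⟩
  have hNtop : N ≠ ⊤ := by
    intro h0
    apply hNp
    rw [h0, Subgroup.card_top, ← hP]
    exact card_subgroup_dvd_card _
  obtain ⟨M, hMn, hNM, hM⟩ := hsol N hNn hNtop
  have hcardM : Nat.card M = Nat.card N * N.relIndex M := by
    have h1 := (N.subgroupOf M).card_mul_index
    rw [Nat.card_congr (subgroupOfEquivOfLe hNM.le).toEquiv] at h1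
    exact h1.symm
  have hpM : p ∣ Nat.card M := by
    by_contra hcon
    exact hNM.not_ge (hNmax ⟨hMn, hcon⟩ hNM.le)
  rcases hM with ⟨k, hk⟩ | hM
  · -- `M` contains `P`
    have hPM : (P : Subgroup G) ≤ M := by
      obtain ⟨x, hx⟩ := exists_prime_orderOf_dvd_card' p hpM
      have hxo : orderOf (x : G) = p := by rw [← hx]; exact Subgroup.orderOf_coe x
      have hxp : IsPGroup p (zpowers (x : G)) := by
        rw [IsPGroup.iff_card]; exact ⟨1, by rw [Nat.card_zpowers, hxo, pow_one]⟩
      obtain ⟨T, hT⟩ := hxp.exists_le_sylow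
      have hTc : Nat.card T = p := by
        have h1 : Nat.card T = Nat.card P := Nat.card_congr (T.equiv P).toEquiv
        rw [h1]; exact hP
      have hTx : zpowers (x : G) = (T : Subgroup G) := by
        apply Subgroup.eq_of_le_of_card_ge hT
        rw [Nat.card_zpowers, hxo]; exact hTc.le
      obtain ⟨c, hc⟩ := MulAction.exists_smul_eq G T P
      intro y hy
      rw [← hc] at hy
      obtain ⟨t, ht, rfl⟩ := hy
      have ht' : t ∈ zpowers (x : G) := by rw [hTx]; exact ht
      have htM : t ∈ M := (zpowers_le.2 x.2) ht'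
      exact hMn.conj_mem t htM c
    have h1 : (N ⊔ P : Subgroup G) = M := by
      apply Subgroup.eq_of_le_of_card_ge (sup_le hNM.le hPM)
      have h2 : Nat.card N * p ∣ Nat.card (N ⊔ P : Subgroup G) := by
        apply Nat.Coprime.mul_dvd_of_dvd_of_dvd
        · exact ((hp.out.coprime_iff_not_dvd).2 hNp).symm
        · exact card_dvd_of_le le_sup_left
        · exact (dvd_of_eq hP.symm).trans (card_dvd_of_le le_sup_right)
      have h3 : Nat.card M ∣ Nat.card N * p := by
        rw [hcardM, hk]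
        apply Nat.mul_dvd_mul_left
        have h4 : p ^ k ∣ Nat.card G := by
          rw [← hk]
          exact (Dvd.intro _ (relIndex_mul_index hNM.le)).trans N.index_dvd_card
        have h5 := P.pow_dvd_card_of_pow_dvd_card h4
        exact h5.trans (dvd_of_eq hP)
      exact Nat.le_of_dvd Nat.card_pos (h3.trans h2)
    rw [h1]; exact hMn
  · exfalso
    rw [hcardM] at hpM
    exact (hp.out.not_dvd_mul hNp hM) hpM

/-- a nontrivial normal solvable subgroup contains a nontrivial abelian normal subgroup -/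
lemma exists_abelian (hsolv : Group.IsSolvable G) (M : Subgroup G) [hM : M.Normal] (hM1 : M ≠ ⊥) :
    ∃ D : Subgroup G, D.Normal ∧ D ≠ ⊥ ∧ D ≤ M ∧ ⁅D, D⁆ = ⊥ := by
  let L : ℕ → Subgroup G := fun n => Nat.rec M (fun _ H => ⁅H, H⁆) n
  have hLs : ∀ n, L (n + 1) = ⁅L n, L n⁆ := fun n => rfl
  have hLn : ∀ n, (L n).Normal := by
    intro n
    induction n with
    | zero => exact hM
    | succ n ih => exact @Subgroup.commutator_normal G _ _ _ ih ih
  have hLd : ∀ n, L n ≤ derivedSeries G n := by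
    intro n
    induction n with
    | zero => exact le_top
    | succ n ih => rw [hLs, derivedSeries_succ]; exact commutator_mono ih ih
  have hLk : ∀ n, L n ≤ M := by
    intro n
    induction n with
    | zero => exact le_rfl
    | succ n ih =>
      rw [hLs]
      exact (@commutator_le_left G _ (L n) (L n) (hLn n)).trans ih
  obtain ⟨n, hn1, hn2⟩ : ∃ n, L n ≠ ⊥ ∧ ⁅L n, L n⁆ = ⊥ := by
    by_contra hno
    push Not at hno
    obtain ⟨n, hn⟩ := hsolv.solvable
    have : ∀ n, L n ≠ ⊥ := by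
      intro n
      induction n with
      | zero => exact hM1
      | succ n ih => exact hno n ih
    apply this n
    rw [eq_bot_iff, ← hn]; exact hLd n
  exact ⟨L n, hLn n, hn1, hLk n, hn2⟩

omit [Finite G] in
lemma comm_of {D : Subgroup G} (hDc : ⁅D, D⁆ = ⊥) {a b : G} (ha : a ∈ D) (hb : b ∈ D) :
    a * b = b * a := by
  have h1 : a * b * a⁻¹ * b⁻¹ ∈ (⊥ : Subgroup G) := by
    rw [← hDc]; exact commutator_mem_commutator ha hb
  rw [mem_bot, mul_inv_eq_one] at h1
  exact mul_inv_eq_iff_eq_mul.1 h1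


omit hp in
lemma psoluble_of_solvable (p : ℕ) [Fact p.Prime] (hs : Group.IsSolvable G) : IsPSoluble p G := by
  intro N hN hNtop
  set π := QuotientGroup.mk' N with hπ
  have hsur : Function.Surjective π := QuotientGroup.mk'_surjective N
  have htop : (⊤ : Subgroup (G ⧸ N)) ≠ ⊥ := by
    intro h0
    apply hNtop
    rw [eq_top_iff]
    intro x _
    have : π x ∈ (⊤ : Subgroup (G ⧸ N)) := mem_top _
    rw [h0, mem_bot] at this
    exact (QuotientGroup.eq_one_iff x).1 this
  obtain ⟨D, hDn, hD1, -, hDc⟩ := exists_abelian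
    (Group.isSolvable_of_surjective hsur) (⊤ : Subgroup (G ⧸ N)) htop
  obtain ⟨q, hq, hqD⟩ := Nat.exists_prime_and_dvd (fun h0 => hD1 (D.card_eq_one.1 h0))
  have : Fact q.Prime := ⟨hq⟩
  obtain ⟨x, hx⟩ := exists_prime_orderOf_dvd_card' q hqD
  let Z : Subgroup (G ⧸ N) :=
    { carrier := {z | z ∈ D ∧ z ^ q = 1}
      one_mem' := ⟨one_mem _, by simp⟩
      mul_mem' := by
        rintro u v ⟨hu1, hu2⟩ ⟨hv1, hv2⟩
        refine ⟨mul_mem hu1 hv1, ?_⟩
        have : Commute u v := comm_of hDc hu1 hv1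
        rw [this.mul_pow, hu2, hv2, mul_one]
      inv_mem' := by
        rintro u ⟨hu1, hu2⟩
        exact ⟨inv_mem hu1, by rw [inv_pow, hu2, inv_one]⟩ }
  have hZ : ∀ z, z ∈ Z ↔ z ∈ D ∧ z ^ q = 1 := fun z => Iff.rfl
  have hZn : Z.Normal := by
    refine ⟨fun z hz g => ?_⟩
    obtain ⟨h1, h2⟩ := (hZ z).1 hz
    exact (hZ _).2 ⟨hDn.conj_mem z h1 g, by rw [conj_pow, h2]; simp⟩
  have hZp : IsPGroup q Z := by
    intro z
    refine ⟨1, ?_⟩
    apply Subtype.ext
    rw [pow_one]
    exact ((hZ z).1 z.2).2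
  have hxq : (x : G ⧸ N) ^ q = 1 := by
    have := pow_orderOf_eq_one x
    rw [hx] at this
    exact congrArg Subtype.val this
  have hxZ : (x : G ⧸ N) ∈ Z := (hZ _).2 ⟨x.2, hxq⟩
  have hx1 : (x : G ⧸ N) ≠ 1 := by
    intro h0
    have : x = 1 := Subtype.ext h0
    rw [this, orderOf_one] at hx
    exact hq.one_lt.ne hx
  have hNker : N = (⊥ : Subgroup (G ⧸ N)).comap π := by
    rw [MonoidHom.comap_bot, QuotientGroup.ker_mk']
  have hrel : N.relIndex (Z.comap π) = Nat.card Z := by
    have h1 : N.relIndex (Z.comap π) =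
        ((⊥ : Subgroup (G ⧸ N)).comap π).relIndex (Z.comap π) :=
      congrArg (fun K : Subgroup G => K.relIndex (Z.comap π)) hNker
    rw [h1, relIndex_comap, map_comap_eq_self_of_surjective hsur, relIndex_bot_left]
  refine ⟨Z.comap π, hZn.comap π, lt_of_le_of_ne ?_ ?_, ?_⟩
  · intro y hy
    rw [mem_comap]
    have : π y = 1 := (QuotientGroup.eq_one_iff y).2 hy
    rw [this]; exact one_mem _
  · intro h0
    obtain ⟨w, hw⟩ := hsur x
    have h1 : w ∈ Z.comap π := by rw [mem_comap, hw]; exact hxZ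
    rw [← h0] at h1
    apply hx1
    rw [← hw]
    exact (QuotientGroup.eq_one_iff w).2 h1
  · rw [hrel]
    obtain ⟨k, hk⟩ := IsPGroup.iff_card.1 hZp
    by_cases hqp : q = p
    · left; exact ⟨k, by rw [hk, hqp]⟩
    · right
      rw [hk]
      intro hd
      have hpp : p.Prime := Fact.out
      exact hqp ((Nat.prime_dvd_prime_iff_eq hpp hq).1 (hpp.dvd_of_dvd_pow hd)).symm

lemma rel_index (P : Sylow p G) (hP : Nat.card P = p)
    (hc : centralizer ((P : Subgroup G) : Set G) = P) :
    (P : Subgroup G).relIndex (normalizer ((P : Subgroup G) : Set G)) ∣ p - 1 := by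
  have hcy : IsCyclic P := isCyclic_of_prime_card hP
  have h1 : (normalizerMonoidHom (P : Subgroup G)).ker =
      (P : Subgroup G).subgroupOf (normalizer ((P : Subgroup G) : Set G)) := by
    rw [normalizerMonoidHom_ker, hc]
  rw [relIndex, ← h1, index_ker]
  have h2 : Nat.card (MulAut P) = p - 1 := by
    rw [IsCyclic.card_mulAut, hP, Nat.totient_prime hp.out]
  rw [← h2]
  exact card_subgroup_dvd_card _

/-- For a prime `p`, a finite `p`-soluble group `G` satisfies (C_p) if and only if it is of one of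
three kinds. -/
theorem result (p : ℕ) [Fact p.Prime] (G : Type u) [Group G] [Finite G]
    (hs : IsPSoluble p G ∨ Group.IsSolvable G) :
    CondC p G ↔
      ¬ p ∣ Nat.card G ∨
      (∃ P : Sylow p G, Nat.card P = p ∧ centralizer ((P : Subgroup G) : Set G) = P ∧
        (P : Subgroup G).relIndex (normalizer ((P : Subgroup G) : Set G)) ∣ p - 1 ∧
        ∃ N : Subgroup G, N.Normal ∧ ¬ p ∣ Nat.card N ∧ (N ⊔ P : Subgroup G).Normal ∧
          N ⊔ normalizer ((P : Subgroup G) : Set G) = ⊤) ∨
      (∃ P : Sylow p G, (P : Subgroup G).Normal ∧ (∀ x ∈ (P : Subgroup G), x ^ p = 1) ∧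
        ∀ x ∈ (P : Subgroup G), x ≠ 1 → IsPGroup p (centralizer ({x} : Set G))) := by
  have hp : p.Prime := Fact.out
  replace hs : IsPSoluble p G := hs.elim id (psoluble_of_solvable p)
  constructor
  · intro h
    by_cases hpG : p ∣ Nat.card G
    · right
      obtain ⟨P⟩ : Nonempty (Sylow p G) := inferInstance
      have hPord : ∀ x ∈ (P : Subgroup G), x ≠ 1 → orderOf x = p := by
        intro x hx hx1
        obtain ⟨k, hk⟩ := P.2 ⟨x, hx⟩
        exact ord_p h (k := k) (congrArg Subtype.val hk) hx1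
      have hcen : ∀ x ∈ (P : Subgroup G), x ≠ 1 → IsPGroup p (centralizer ({x} : Set G)) := by
        intro x hx hx1
        rw [IsPGroup.iff_card]
        refine ⟨_, Nat.eq_prime_pow_of_unique_prime_dvd Nat.card_pos.ne' (fun {q} hq hqd => ?_)⟩
        by_contra hqp
        have : Fact q.Prime := ⟨hq⟩
        obtain ⟨y, hy⟩ := exists_prime_orderOf_dvd_card' q hqd
        have hyo : orderOf (y : G) = q := by rw [← hy]; exact Subgroup.orderOf_coe y
        have hyc : Commute x (y : G) := mem_centralizer_iff.1 y.2 x rfl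
        have h1 := comm_coprime h (hPord x hx hx1) (y := (y : G)) (by
          rw [hyo]; intro hd
          exact hqp ((Nat.prime_dvd_prime_iff_eq hp hq).1 hd).symm) hyc
        rw [h1, orderOf_one] at hyo
        exact hq.one_lt.ne hyo
      by_cases hno : ∀ M : Subgroup G, M.Normal → ¬ p ∣ Nat.card M → M = ⊥
      · right
        refine ⟨P, caseB h hs hpG hno P, fun x hx => ?_, hcen⟩
        by_cases hx1 : x = 1
        · rw [hx1, one_pow]
        · rw [← hPord x hx hx1]; exact pow_orderOf_eq_one x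
      · left
        push Not at hno
        obtain ⟨M, hM, hMp, hM1⟩ := hno
        have hP := caseA h hpG M hM hM1 hMp P
        suffices hcc : centralizer ((P : Subgroup G) : Set G) = P by
          obtain ⟨N, hN1, hN2, hN3⟩ := exists_N hs P hP
          refine ⟨P, hP, hcc, rel_index P hP hcc, N, hN1, hN2, hN3, ?_⟩
          have h1 := P.normalizer_sup_eq_top' (N := N ⊔ P) le_sup_right
          have h2 : (P : Subgroup G) ≤ normalizer ((P : Subgroup G) : Set G) := le_normalizer
          rw [eq_top_iff, ← h1]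
          exact sup_le le_sup_right (sup_le le_sup_left (h2.trans le_sup_right))
        have hnt : Nontrivial P := by
          rw [← Finite.one_lt_card_iff_nontrivial, hP]; exact hp.one_lt
        obtain ⟨x, hx1⟩ := exists_ne (1 : P)
        have hx1' : (x : G) ≠ 1 := fun h => hx1 (Subtype.ext h)
        have hPc : (P : Subgroup G) ≤ centralizer ((P : Subgroup G) : Set G) := by
          have : IsCyclic P := isCyclic_of_prime_card hP
          intro a ha
          rw [mem_centralizer_iff]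
          intro b hb
          have h1 := (IsCyclic.commGroup (α := P)).mul_comm ⟨b, hb⟩ ⟨a, ha⟩
          exact congrArg Subtype.val h1
        have hcp : IsPGroup p (centralizer ((P : Subgroup G) : Set G)) := by
          refine (hcen x x.2 hx1').to_le ?_
          exact centralizer_le (Set.singleton_subset_iff.2 x.2)
        exact P.3 hcp hPc
    · exact Or.inl hpG
  · rintro (h | ⟨P, hP, hc, -⟩ | ⟨P, hPn, hexp, hc⟩) g hg
    · exact absurd (hg.trans (orderOf_dvd_natCard g)) h
    · -- an element of order `p` in `⟨g⟩`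
      obtain ⟨m, hm⟩ := hg
      have hm0 : m ≠ 0 := by
        rintro rfl
        rw [mul_zero] at hm
        exact (orderOf_pos g).ne' hm
      set y := g ^ m with hy
      have hyo : orderOf y = p := by
        rw [hy, orderOf_pow, hm, Nat.gcd_eq_right (dvd_mul_left m p), Nat.mul_div_cancel _
          (Nat.pos_of_ne_zero hm0)]
      have hyp : IsPGroup p (zpowers y) := by
        rw [IsPGroup.iff_card]; exact ⟨1, by rw [Nat.card_zpowers, hyo, pow_one]⟩
      obtain ⟨T, hT⟩ := hyp.exists_le_sylow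
      obtain ⟨c, hcT⟩ := MulAction.exists_smul_eq G T P
      have h1 : c * y * c⁻¹ ∈ (P : Subgroup G) := by
        rw [← hcT]
        exact Subgroup.smul_mem_pointwise_smul y (MulAut.conj c) (T : Subgroup G)
          (hT (mem_zpowers y))
      have h2 : zpowers (c * y * c⁻¹) = (P : Subgroup G) := by
        apply Subgroup.eq_of_le_of_card_ge (zpowers_le.2 h1)
        have h3 : orderOf (c * y * c⁻¹) = orderOf y := (MulAut.conj c).orderOf_eq y
        rw [Nat.card_zpowers, h3, hyo]
        exact hP.le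
      have h4 : c * g * c⁻¹ ∈ (P : Subgroup G) := by
        rw [← hc, mem_centralizer_iff]
        intro w hw
        have hw' : w ∈ zpowers (c * y * c⁻¹) := by rw [h2]; exact hw
        obtain ⟨k, rfl⟩ := mem_zpowers_iff.1 hw'
        have h5 : Commute (c * y * c⁻¹) (c * g * c⁻¹) := by
          have h6 : Commute y g := (Commute.refl g).pow_left m
          change c * y * c⁻¹ * (c * g * c⁻¹) = c * g * c⁻¹ * (c * y * c⁻¹)
          have e1 : c * y * c⁻¹ * (c * g * c⁻¹) = c * (y * g) * c⁻¹ := by group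
          have e2 : c * g * c⁻¹ * (c * y * c⁻¹) = c * (g * y) * c⁻¹ := by group
          rw [e1, e2, h6.eq]
        exact h5.zpow_left k
      have h7 : orderOf (c * g * c⁻¹) ∣ p := by
        have h8 : orderOf (⟨_, h4⟩ : P) = orderOf (c * g * c⁻¹) :=
          (Subgroup.orderOf_coe (⟨_, h4⟩ : (P : Subgroup G))).symm
        rw [← h8]; exact (_root_.orderOf_dvd_natCard (⟨_, h4⟩ : P)).trans (dvd_of_eq hP)
      have h9 : orderOf (c * g * c⁻¹) = orderOf g := (MulAut.conj c).orderOf_eq g
      rw [h9] at h7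
      rcases (Nat.dvd_prime hp).1 h7 with h10 | h10
      · rw [h10] at hm
        exact absurd (Nat.dvd_one.1 ⟨m, hm⟩) hp.one_lt.ne'
      · rw [h10]; exact hp
    · obtain ⟨m, hm⟩ := hg
      have hm0 : m ≠ 0 := by
        rintro rfl
        rw [mul_zero] at hm
        exact (orderOf_pos g).ne' hm
      set y := g ^ m with hy
      have hyo : orderOf y = p := by
        rw [hy, orderOf_pow, hm, Nat.gcd_eq_right (dvd_mul_left m p), Nat.mul_div_cancel _
          (Nat.pos_of_ne_zero hm0)]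
      have hin : ∀ H : Subgroup G, IsPGroup p H → H ≤ (P : Subgroup G) := by
        intro H hH
        have h1 : IsPGroup p ((P : Subgroup G) ⊔ H : Subgroup G) := P.2.to_sup_of_normal_left hH
        have h2 := P.3 h1 le_sup_left
        rw [← h2]; exact le_sup_right
      have hyp : IsPGroup p (zpowers y) := by
        rw [IsPGroup.iff_card]; exact ⟨1, by rw [Nat.card_zpowers, hyo, pow_one]⟩
      have hyP : y ∈ (P : Subgroup G) := hin _ hyp (mem_zpowers y)
      have hy1 : y ≠ 1 := by
        intro h0; rw [h0, orderOf_one] at hyo; exact hp.one_lt.ne hyo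
      have hgP : g ∈ (P : Subgroup G) := by
        apply hin _ (hc y hyP hy1)
        rw [mem_centralizer_iff]
        rintro _ rfl
        exact (Commute.refl g).pow_left m
      have h7 := orderOf_dvd_of_pow_eq_one (hexp g hgP)
      rcases (Nat.dvd_prime hp).1 h7 with h10 | h10
      · rw [h10] at hm
        exact absurd (Nat.dvd_one.1 ⟨m, hm⟩) hp.one_lt.ne'
      · rw [h10]; exact hp

end final

end Pool.Agent.Results.MP_cb01cb_al.PSoluble
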